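import Mathlib
import Pool.Graph.R_pool_sql_team_seeded_9f66d723.W5h59.Bu.St
import Pool.Graph.R_pool_sql_team_seeded_9f66d723.W5h59.Bu.Rad
import Pool.Agent.H678.Inv.Y

/-!
# Normal sets of involutions, any six of which generate a group with `(x y z) ^ 4 = 1` for involutions

Let `X` be such a set and `a, b` in `X`.  The commutator `t = [a, b] = (a b) ^ 2` has the property of
the theorem of Hadjievangelou and Traustason (strongly left `3`-Engel involutions): `(t t ^ g) ^ 4 = 1`
and `[t, t ^ g]` commutes with `[t, t ^ h]`, since these are elements of the group generated by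
`a, b, a ^ g, b ^ g, a ^ h, b ^ h`, where `t` is a strong involution.  So `t` is in the locally finite
`2`-radical, and modulo the radical the elements of `X` commute.
-/

set_option autoImplicit false

namespace Pool.Agent.H775.Six

open Pool.Agent.W5h59.Bu (LFn LF2 rad rad_lf rad_quot le_rad mem_rad E3 St ik)
open Pool.Agent.H678.Inv (k cj cj_k Co)

universe u

variable {G : Type u} [Group G]

/-- the commutator structure in a group generated by six involutions -/
theorem six {M : Subgroup G} (H : E3 M) {a b c d e f : G} (ha : a * a = 1) (hb : b * b = 1)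
    (hc : c * c = 1) (hd : d * d = 1) (he : e * e = 1) (hf : f * f = 1) (ma : a ∈ M) (mb : b ∈ M)
    (mc : c ∈ M) (md : d ∈ M) (me : e ∈ M) (mf : f ∈ M) :
    k a b * k a b = 1 ∧ k (k a b) (k c d) * k (k a b) (k c d) = 1 ∧
      Commute (k (k a b) (k c d)) (k (k a b) (k e f)) := by
  have sq : ∀ (x : G) (hx : x ∈ M), x * x = 1 → (⟨x, hx⟩ : M) * ⟨x, hx⟩ = 1 := by
    intro x hx h2
    exact Subtype.ext h2
  have iA := sq a ma ha
  have iB := sq b mb hb
  have iC := sq c mc hc
  have iD := sq d md hd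
  have iE := sq e me he
  have iF := sq f mf hf
  have s : St (Pool.Agent.W5h59.Bu.k (⟨a, ma⟩ : M) ⟨b, mb⟩) := St.k H iA iB
  have iCD := ik H iC iD
  have iEF := ik H iE iF
  have h1 := s.1
  have h2 := ik H s.1 iCD
  have h3 := s.co H iCD iEF
  exact ⟨congrArg Subtype.val h1, congrArg Subtype.val h2, congrArg Subtype.val h3.eq⟩

/-- **normal sets of involutions, any six of which generate a group with `(x y z) ^ 4 = 1` for
involutions `x, y, z`** -/
theorem core {X : Set G} (hn : ∀ x ∈ X, ∀ g : G, g⁻¹ * x * g ∈ X) (h2 : ∀ x ∈ X, x * x = 1)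
    (h6 : ∀ x : Fin 6 → G, (∀ i, x i ∈ X) → E3 (Subgroup.closure (Set.range x))) :
    X ⊆ rad G := by
  have h6' : ∀ {a b c d e f : G}, a ∈ X → b ∈ X → c ∈ X → d ∈ X → e ∈ X → f ∈ X →
      E3 (Subgroup.closure (Set.range ![a, b, c, d, e, f])) := by
    intro a b c d e f ha hb hc hd he hf
    refine h6 _ ?_
    intro i
    fin_cases i
    · exact ha
    · exact hb
    · exact hc
    · exact hd
    · exact he
    · exact hf
  have hk : ∀ a ∈ X, ∀ b ∈ X, k a b ∈ rad G := by
    intro a ha b hb
    have hc : ∀ x ∈ X, ∀ g : G, cj x g ∈ X := fun x hx g => hn x hx g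
    have key : ∀ g h : G, k a b * k a b = 1 ∧
        k (k a b) (cj (k a b) g) * k (k a b) (cj (k a b) g) = 1 ∧
        Commute (k (k a b) (cj (k a b) g)) (k (k a b) (cj (k a b) h)) := by
      intro g h
      rw [cj_k, cj_k]
      have hm : ∀ i : Fin 6, (![a, b, cj a g, cj b g, cj a h, cj b h] i) ∈
          Subgroup.closure (Set.range ![a, b, cj a g, cj b g, cj a h, cj b h]) :=
        fun i => Subgroup.subset_closure ⟨i, rfl⟩
      exact six (h6' ha hb (hc a ha g) (hc b hb g) (hc a ha h) (hc b hb h))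
        (h2 a ha) (h2 b hb) (h2 _ (hc a ha g)) (h2 _ (hc b hb g)) (h2 _ (hc a ha h))
        (h2 _ (hc b hb h)) (hm 0) (hm 1) (hm 2) (hm 3) (hm 4) (hm 5)
    have hCo : Co (k a b) Set.univ := by
      exact ⟨(key 1 1).1, fun g _ => (key g g).2.1, fun g _ h _ =>
        Pool.Agent.H678.Inv.k_one (key g g).2.1 (key h h).2.1 (key g h).2.2⟩
    exact hCo.mr
  intro a ha
  have hbot : (QuotientGroup.mk' (rad G)) a ∈ rad (G ⧸ rad G) := by
    refine mem_rad _ ?_ ?_
    · rw [← map_mul, h2 a ha, map_one]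
    · intro y
      obtain ⟨g, rfl⟩ := QuotientGroup.mk'_surjective (rad G) y
      rw [← map_inv, ← map_mul, ← map_mul]
      have hb : g * a * g⁻¹ ∈ X := by
        have := hn a ha g⁻¹
        rwa [inv_inv] at this
      have h1 : (QuotientGroup.mk' (rad G)) (k a (g * a * g⁻¹)) = 1 := by
        rw [QuotientGroup.mk'_apply, QuotientGroup.eq_one_iff]
        exact hk a ha _ hb
      have h3 : (QuotientGroup.mk' (rad G)) a * (QuotientGroup.mk' (rad G)) (g * a * g⁻¹) *
          ((QuotientGroup.mk' (rad G)) a * (QuotientGroup.mk' (rad G)) (g * a * g⁻¹)) = 1 := by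
        rw [← map_mul, ← map_mul]
        exact h1
      refine Pool.Agent.W5h59.Bu.co_of_im ?_ ?_ h3
      · rw [← map_mul, h2 a ha, map_one]
      · rw [← map_mul, h2 _ hb, map_one]
  rw [rad_quot, Subgroup.mem_bot, QuotientGroup.mk'_apply, QuotientGroup.eq_one_iff] at hbot
  exact hbot

/-- the property `x ^ 4 = 1` for subgroups -/
def Ex4 (H : Subgroup G) : Prop := ∀ g ∈ H, g ^ 4 = 1

theorem e3_of_ex4 {H : Subgroup G} (h : Ex4 H) : E3 H := by
  intro x y z _ _ _
  apply Subtype.ext
  have := h ((x * y * z : H) : G) (x * y * z).2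
  rw [show (4 : ℕ) = 2 + 2 from rfl, pow_add, sq] at this
  simpa using this

/-- **normal sets, any six elements of which generate a group of exponent dividing four** -/
theorem core4 {X : Set G} (hn : ∀ x ∈ X, ∀ g : G, g⁻¹ * x * g ∈ X)
    (h6 : ∀ x : Fin 6 → G, (∀ i, x i ∈ X) → Ex4 (Subgroup.closure (Set.range x))) :
    X ⊆ rad G := by
  have h4 : ∀ x ∈ X, x ^ 4 = 1 := by
    intro x hx
    exact h6 (fun _ => x) (fun _ => hx) x (Subgroup.subset_closure ⟨0, rfl⟩)
  -- the squares
  have h1 : ∀ x ∈ X, x * x ∈ rad G := by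
    have : {y : G | ∃ x ∈ X, y = x * x} ⊆ rad G := by
      refine core ?_ ?_ ?_
      · rintro _ ⟨x, hx, rfl⟩ g
        exact ⟨g⁻¹ * x * g, hn x hx g, by group⟩
      · rintro _ ⟨x, hx, rfl⟩
        have := h4 x hx
        rw [show (4 : ℕ) = 2 + 2 from rfl, pow_add, sq] at this
        exact this
      · intro y hy
        choose x hx hyx using hy
        refine e3_of_ex4 fun g hg => h6 x hx g ?_
        refine (Subgroup.closure_le _).2 ?_ hg
        rintro _ ⟨i, rfl⟩
        rw [hyx i]
        exact mul_mem (Subgroup.subset_closure ⟨i, rfl⟩) (Subgroup.subset_closure ⟨i, rfl⟩)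
    intro x hx
    exact this ⟨x, hx, rfl⟩
  -- modulo the radical
  have h3 : (QuotientGroup.mk' (rad G)) '' X ⊆ rad (G ⧸ rad G) := by
    refine core ?_ ?_ ?_
    · rintro _ ⟨x, hx, rfl⟩ y
      obtain ⟨g, rfl⟩ := QuotientGroup.mk'_surjective (rad G) y
      exact ⟨g⁻¹ * x * g, hn x hx g, by rw [map_mul, map_mul, map_inv]⟩
    · rintro _ ⟨x, hx, rfl⟩
      rw [← map_mul, QuotientGroup.mk'_apply, QuotientGroup.eq_one_iff]
      exact h1 x hx
    · intro y hy
      choose x hx hyx using hy
      refine e3_of_ex4 fun g hg => ?_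
      have e : Set.range y = (QuotientGroup.mk' (rad G)) '' Set.range x := by
        rw [← Set.range_comp]
        congr 1
        funext i
        exact (hyx i).symm
      rw [e, ← MonoidHom.map_closure] at hg
      obtain ⟨w, hw, rfl⟩ := hg
      rw [← map_pow, h6 x hx w hw, map_one]
  intro x hx
  have h5 := h3 ⟨x, hx, rfl⟩
  rw [rad_quot] at h5
  have h7 : (QuotientGroup.mk' (rad G)) x = 1 := Subgroup.mem_bot.1 h5
  rw [QuotientGroup.mk'_apply, QuotientGroup.eq_one_iff] at h7
  exact h7

end Pool.Agent.H775.Six
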