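import Mathlib
import Pool.Graph.R_pool_sql_team_seeded_9f66d723.W5h59.Bu.Main
import Pool.Graph.R_seed8.H15R2.Burn
import Pool.Agent.H775.Six.Core

/-!
# Products of a bounded number of elements

The free group of exponent four on `n` generators is finite (Sanov), so it is finitely presented:
finitely many fourth powers suffice.  Hence there is `K` such that, in an arbitrary group, `n` elements
generate a group of exponent dividing four if all the products of at most `K` of them have trivial
fourth power.
-/

set_option autoImplicit false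

namespace Pool.Agent.H775.Six

open Pool.Agent.W5h59.Bu (closure_fin closure_fin_set)

universe u

/-- the fourth powers in the free group -/
def P4 (n : ℕ) : Set (FreeGroup (Fin n)) := {w | ∃ v, w = v ^ 4}

theorem P4_normal (n : ℕ) : (Subgroup.closure (P4 n)).Normal := by
  constructor
  intro x hx g
  have h : Subgroup.closure (P4 n) ≤ (Subgroup.closure (P4 n)).comap (MulAut.conj g).toMonoidHom := by
    rw [Subgroup.closure_le]
    rintro _ ⟨v, rfl⟩
    rw [SetLike.mem_coe, Subgroup.mem_comap]
    refine Subgroup.subset_closure ⟨g * v * g⁻¹, ?_⟩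
    rw [conj_pow]
    rfl
  exact h hx

theorem P4_fg (n : ℕ) : ∃ S : Finset (FreeGroup (Fin n)), (S : Set (FreeGroup (Fin n))) ⊆ P4 n ∧
    Subgroup.closure (P4 n) = Subgroup.closure (S : Set (FreeGroup (Fin n))) := by
  classical
  have := P4_normal n
  set N := Subgroup.closure (P4 n) with hN
  have h4 : ∀ g : FreeGroup (Fin n) ⧸ N, g ^ 4 = 1 := by
    intro g
    obtain ⟨v, rfl⟩ := QuotientGroup.mk'_surjective N g
    rw [← map_pow, QuotientGroup.mk'_apply, QuotientGroup.eq_one_iff]
    exact Subgroup.subset_closure ⟨v, rfl⟩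
  have hfin : Finite (FreeGroup (Fin n) ⧸ N) := by
    have h1 := H15.Burn.fin4 h4 (Finset.univ.image fun i : Fin n => QuotientGroup.mk' N (FreeGroup.of i))
    have h2 : Subgroup.closure ((Finset.univ.image fun i : Fin n =>
        QuotientGroup.mk' N (FreeGroup.of i) : Finset (FreeGroup (Fin n) ⧸ N)) :
        Set (FreeGroup (Fin n) ⧸ N)) = ⊤ := by
      rw [Finset.coe_image, Finset.coe_univ, Set.image_univ]
      have : Set.range (fun i : Fin n => QuotientGroup.mk' N (FreeGroup.of i)) =
          (QuotientGroup.mk' N) '' Set.range (FreeGroup.of : Fin n → FreeGroup (Fin n)) := by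
        rw [← Set.range_comp]
        rfl
      rw [this, ← MonoidHom.map_closure, FreeGroup.closure_range_of, ← MonoidHom.range_eq_map,
        MonoidHom.range_eq_top]
      exact QuotientGroup.mk'_surjective N
    rw [h2, Subgroup.coe_top] at h1
    exact Set.finite_univ_iff.1 h1
  have : N.FiniteIndex := Subgroup.finiteIndex_of_finite_quotient
  have : Group.FG N := Subgroup.fg_of_index_ne_zero N
  have hfg : N.FG := (Group.fg_iff_subgroup_fg N).1 inferInstance
  obtain ⟨T, hT⟩ := hfg
  obtain ⟨S, hS1, hS2⟩ := closure_fin_set (D := P4 n) (F := (T : Set (FreeGroup (Fin n))))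
    T.finite_toSet (by
      rw [← hN, ← hT]
      exact Subgroup.subset_closure)
  refine ⟨S, hS1, le_antisymm ?_ (Subgroup.closure_mono hS1)⟩
  rw [← hT, Subgroup.closure_le]
  exact hS2

/-- positive words -/
theorem pos_word {n : ℕ} (v : FreeGroup (Fin n)) : ∃ L : List (Fin n),
    ∀ (G : Type u) [Group G] (x : Fin n → G), (∀ i, x i ^ 4 = 1) →
      FreeGroup.lift x v = (L.map x).prod := by
  induction v using FreeGroup.induction_on with
  | C1 => exact ⟨[], fun G _ x _ => by simp⟩
  | of i => exact ⟨[i], fun G _ x _ => by simp⟩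
  | inv_of i _ =>
    refine ⟨[i, i, i], fun G _ x hx => ?_⟩
    rw [map_inv, FreeGroup.lift_apply_of, inv_eq_iff_mul_eq_one]
    have := hx i
    simpa [pow_succ, mul_assoc] using this
  | mul v w h1 h2 =>
    obtain ⟨L, hL⟩ := h1
    obtain ⟨L', hL'⟩ := h2
    refine ⟨L ++ L', fun G _ x hx => ?_⟩
    rw [map_mul, hL G x hx, hL' G x hx, List.map_append, List.prod_append]

/-- **finitely many fourth powers suffice** -/
theorem compact (n : ℕ) : ∃ K : ℕ, ∀ (G : Type u) [Group G] (x : Fin n → G),
    (∀ L : List (Fin n), L.length ≤ K → (L.map x).prod ^ 4 = 1) →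
      Ex4 (Subgroup.closure (Set.range x)) := by
  classical
  obtain ⟨S, hS, hN⟩ := P4_fg n
  have h1 : ∃ K : ℕ, ∀ w ∈ S, ∃ v, w = v ^ 4 ∧ ∃ L : List (Fin n), L.length ≤ K ∧
      ∀ (G : Type u) [Group G] (x : Fin n → G), (∀ i, x i ^ 4 = 1) →
        FreeGroup.lift x v = (L.map x).prod := by
    clear hN
    induction S using Finset.induction_on with
    | empty => exact ⟨0, by simp⟩
    | insert w S hw ih =>
      obtain ⟨K, hK⟩ := ih (fun y hy => hS (Finset.mem_insert_of_mem hy))
      obtain ⟨v, hv⟩ := hS (show w ∈ _ by simp)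
      obtain ⟨L, hL⟩ := pos_word.{u} v
      refine ⟨max K L.length, ?_⟩
      intro y hy
      rw [Finset.mem_insert] at hy
      rcases hy with rfl | hy
      · exact ⟨v, hv, L, le_max_right _ _, hL⟩
      · obtain ⟨v', e', L', h', h''⟩ := hK y hy
        exact ⟨v', e', L', h'.trans (le_max_left _ _), h''⟩
  obtain ⟨K, hK⟩ := h1
  refine ⟨max K 1, ?_⟩
  intro G _ x hx g hg
  have hx4 : ∀ i, x i ^ 4 = 1 := by
    intro i
    have := hx [i] (by simp)
    simpa using this
  rw [← FreeGroup.range_lift_eq_closure] at hg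
  obtain ⟨f, rfl⟩ := hg
  have hf : f ^ 4 ∈ Subgroup.closure (S : Set (FreeGroup (Fin n))) := by
    rw [← hN]
    exact Subgroup.subset_closure ⟨f, rfl⟩
  have hker : Subgroup.closure (S : Set (FreeGroup (Fin n))) ≤ (FreeGroup.lift x).ker := by
    rw [Subgroup.closure_le]
    intro w hw
    obtain ⟨v, rfl, L, hL, hv⟩ := hK w hw
    rw [SetLike.mem_coe, MonoidHom.mem_ker, map_pow, hv G x hx4]
    exact hx L (hL.trans (le_max_left _ _))
  have := hker hf
  rw [MonoidHom.mem_ker, map_pow] at this
  exact this

end Pool.Agent.H775.Six
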