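import Mathlib
import Pool.Agent.H775.Six.Compact

/-!
# Laws

Let `K` be the constant for six elements.  If all the products of at most `K` values of the words of a
set `W` have trivial fourth power, the values are in the locally finite `2`-radical, and modulo the
radical the words of `W` are laws.
-/

set_option autoImplicit false

namespace Pool.Agent.H775.Six

open Pool.Agent.W5h59.Bu (LFn LF2 rad rad_lf rad_quot le_rad)
open scoped commutatorElement

universe u

variable {G : Type u} [Group G]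

theorem lf2_closure {X : Set G} (h : X ⊆ rad G) : LF2 (Subgroup.closure X) :=
  LF2.mono ((Subgroup.closure_le _).2 h) (rad_lf G)

/-- products of bounded length -/
def Pr (K : ℕ) (X : Set G) : Prop :=
  ∀ l : List G, (∀ x ∈ l, x ∈ X) → l.length ≤ K → l.prod ^ 4 = 1

/-- **there is an absolute constant `K`** -/
theorem exists_K : ∃ K : ℕ, ∀ (G : Type u) [Group G] (X : Set G),
    (∀ x ∈ X, ∀ g : G, g⁻¹ * x * g ∈ X) → Pr K X → X ⊆ rad G := by
  obtain ⟨K, hK⟩ := compact.{u} 6
  refine ⟨K, fun G _ X hn hX => core4 hn fun x hx => hK G x fun L hL => ?_⟩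
  refine hX _ ?_ (by rw [List.length_map]; exact hL)
  intro y hy
  obtain ⟨i, -, rfl⟩ := List.mem_map.1 hy
  exact hx i

theorem lfn_of_quot (h : LFn (G ⧸ rad G)) : LFn G := LFn.ext (rad G) (rad_lf G).1 h

/-- the values of the words of `W` -/
def values (W : Set (FreeGroup ℕ)) (G : Type u) [Group G] : Set G :=
  {g | ∃ w ∈ W, ∃ θ : FreeGroup ℕ →* G, g = θ w}

theorem values_normal (W : Set (FreeGroup ℕ)) : ∀ x ∈ values W G, ∀ g : G, g⁻¹ * x * g ∈ values W G := by
  rintro _ ⟨w, hw, θ, rfl⟩ g
  refine ⟨w, hw, (MulAut.conj g⁻¹).toMonoidHom.comp θ, ?_⟩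
  simp

theorem values_quot {W : Set (FreeGroup ℕ)} (h : values W G ⊆ rad G) :
    ∀ x ∈ values W (G ⧸ rad G), x = 1 := by
  rintro _ ⟨w, hw, θ, rfl⟩
  choose c hc using fun i : ℕ => QuotientGroup.mk'_surjective (rad G) (θ (FreeGroup.of i))
  have e : (QuotientGroup.mk' (rad G)).comp (FreeGroup.lift c) = θ := by
    apply FreeGroup.ext_hom
    intro i
    rw [MonoidHom.comp_apply, FreeGroup.lift_apply_of, hc]
  rw [← e, MonoidHom.comp_apply, QuotientGroup.mk'_apply, QuotientGroup.eq_one_iff]
  exact h ⟨w, hw, FreeGroup.lift c, rfl⟩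

theorem words {K : ℕ} (hK : ∀ (G : Type u) [Group G] (X : Set G),
    (∀ x ∈ X, ∀ g : G, g⁻¹ * x * g ∈ X) → Pr K X → X ⊆ rad G) (W : Set (FreeGroup ℕ))
    (hW : ∀ (H : Type u) [Group H], (∀ x ∈ values W H, x = 1) → LFn H)
    (h : Pr K (values W G)) : LFn G :=
  lfn_of_quot (hW _ (values_quot (hK G _ (values_normal W) h)))

/-- powers -/
theorem powers {K : ℕ} (hK : ∀ (G : Type u) [Group G] (X : Set G),
    (∀ x ∈ X, ∀ g : G, g⁻¹ * x * g ∈ X) → Pr K X → X ⊆ rad G) (m : ℕ)
    (hm : ∀ (H : Type u) [Group H], (∀ x : H, x ^ m = 1) → LFn H)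
    (h : ∀ x : Fin K → G, (List.ofFn fun i => x i ^ m).prod ^ 4 = 1) : LFn G := by
  have h1 : {g : G | ∃ x, g = x ^ m} ⊆ rad G := by
    refine hK G _ ?_ ?_
    · rintro _ ⟨x, rfl⟩ g
      refine ⟨g⁻¹ * x * g, ?_⟩
      have := conj_pow (i := m) (a := g⁻¹) (b := x)
      rw [inv_inv] at this
      exact this.symm
    · intro l hl hlK
      have h2 : ∀ i : Fin K, ∃ x : G, x ^ m = l.getD i 1 := by
        intro i
        by_cases hi : (i : ℕ) < l.length
        · obtain ⟨x, hx⟩ := hl (l[(i : ℕ)]) (List.getElem_mem hi)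
          exact ⟨x, by rw [← hx, List.getD_eq_getElem _ _ hi]⟩
        · exact ⟨1, by rw [one_pow, List.getD_eq_default _ _ (not_lt.1 hi)]⟩
      choose x hx using h2
      have h3 : List.ofFn (fun i => x i ^ m) = l ++ List.replicate (K - l.length) 1 := by
        apply List.ext_getElem
        · simp
          omega
        · intro i hi hi'
          rw [List.getElem_ofFn, hx]
          rw [List.length_ofFn] at hi
          by_cases hil : i < l.length
          · rw [List.getElem_append_left hil, List.getD_eq_getElem _ _ hil]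
          · rw [List.getElem_append_right (not_lt.1 hil), List.getElem_replicate,
              List.getD_eq_default _ _ (not_lt.1 hil)]
      have h4 := h x
      rw [h3, List.prod_append, List.prod_replicate, one_pow, mul_one] at h4
      exact h4
  refine lfn_of_quot (hm _ fun q => ?_)
  obtain ⟨x, rfl⟩ := QuotientGroup.mk'_surjective (rad G) q
  rw [← map_pow, QuotientGroup.mk'_apply, QuotientGroup.eq_one_iff]
  exact h1 ⟨x, rfl⟩

/-- the values of the derived words -/
def D (G : Type u) [Group G] : ℕ → Set G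
  | 0 => Set.univ
  | k + 1 => {g | ∃ a ∈ D G k, ∃ b ∈ D G k, g = ⁅a, b⁆}

theorem D_normal (k : ℕ) : ∀ x ∈ D G k, ∀ g : G, g⁻¹ * x * g ∈ D G k := by
  induction k with
  | zero => exact fun _ _ _ => trivial
  | succ k ih =>
    rintro _ ⟨a, ha, b, hb, rfl⟩ g
    refine ⟨_, ih a ha g, _, ih b hb g, ?_⟩
    simp only [commutatorElement_def]
    group

theorem D_map {H : Type u} [Group H] (f : G →* H) (hf : Function.Surjective f) (k : ℕ) :
    D H k ⊆ f '' D G k := by
  induction k with
  | zero =>
    intro y _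
    obtain ⟨x, rfl⟩ := hf y
    exact ⟨x, trivial, rfl⟩
  | succ k ih =>
    rintro _ ⟨a, ha, b, hb, rfl⟩
    obtain ⟨a', ha', rfl⟩ := ih ha
    obtain ⟨b', hb', rfl⟩ := ih hb
    exact ⟨⁅a', b'⁆, ⟨a', ha', b', hb', rfl⟩, map_commutatorElement f a' b'⟩

theorem tors {N : Subgroup G} {x : N} (h : IsOfFinOrder (x : G)) : IsOfFinOrder x := by
  rw [isOfFinOrder_iff_pow_eq_one] at h ⊢
  obtain ⟨n, h1, h2⟩ := h
  exact ⟨n, h1, Subtype.ext (by simpa using h2)⟩

theorem lfn_comm {A : Type u} [Group A] (hc : ∀ x y : A, x * y = y * x) (ht : ∀ x : A, IsOfFinOrder x) :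
    LFn A := by
  intro S hS
  letI : CommGroup A := { ‹Group A› with mul_comm := hc }
  have h1 : Group.FG (Subgroup.closure S) := by
    rw [Group.fg_iff_subgroup_fg, Subgroup.fg_iff]
    exact ⟨S, rfl, hS⟩
  exact CommGroup.finite_of_fg_isMulTorsion _ fun x => tors (ht (x : A))

theorem solv (k : ℕ) : ∀ (G : Type u) [Group G], (∀ x : G, IsOfFinOrder x) → (∀ x ∈ D G k, x = 1) →
    LFn G := by
  induction k with
  | zero =>
    intro G _ _ h
    have : Subsingleton G := ⟨fun a b => by rw [h a trivial, h b trivial]⟩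
    intro S _
    infer_instance
  | succ k ih =>
    intro G _ ht h
    set N := Subgroup.closure (D G k) with hN
    have hNn : N.Normal := by
      constructor
      intro x hx g
      have h : N ≤ N.comap (MulAut.conj g).toMonoidHom := by
        rw [hN, Subgroup.closure_le]
        intro y hy
        rw [SetLike.mem_coe, Subgroup.mem_comap]
        refine Subgroup.subset_closure ?_
        have := D_normal k y hy g⁻¹
        rwa [inv_inv] at this
      exact h hx
    have hc : ∀ x ∈ D G k, ∀ y ∈ D G k, x * y = y * x := by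
      intro x hx y hy
      have := h ⁅x, y⁆ ⟨x, hx, y, hy, rfl⟩
      exact commutatorElement_eq_one_iff_mul_comm.1 this
    refine LFn.ext N ?_ ?_
    · letI := Subgroup.closureCommGroupOfComm hc
      exact lfn_comm (A := N) (fun x y => mul_comm x y) fun x => tors (ht x)
    · refine ih _ ?_ ?_
      · intro q
        obtain ⟨x, rfl⟩ := QuotientGroup.mk'_surjective N q
        exact (QuotientGroup.mk' N).isOfFinOrder (ht x)
      · intro q hq
        obtain ⟨x, hx, rfl⟩ := D_map (QuotientGroup.mk' N) (QuotientGroup.mk'_surjective N) k hq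
        rw [QuotientGroup.mk'_apply, QuotientGroup.eq_one_iff]
        exact Subgroup.subset_closure hx

theorem derived {K : ℕ} (hK : ∀ (G : Type u) [Group G] (X : Set G),
    (∀ x ∈ X, ∀ g : G, g⁻¹ * x * g ∈ X) → Pr K X → X ⊆ rad G) (k : ℕ)
    (ht : ∀ x : G, IsOfFinOrder x) (h : Pr K (D G k)) : LFn G := by
  have h1 := hK G _ (D_normal k) h
  refine lfn_of_quot (solv k _ ?_ ?_)
  · intro q
    obtain ⟨x, rfl⟩ := QuotientGroup.mk'_surjective (rad G) q
    exact (QuotientGroup.mk' (rad G)).isOfFinOrder (ht x)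
  · intro q hq
    obtain ⟨x, hx, rfl⟩ := D_map (QuotientGroup.mk' (rad G)) (QuotientGroup.mk'_surjective (rad G)) k hq
    rw [QuotientGroup.mk'_apply, QuotientGroup.eq_one_iff]
    exact h1 hx

end Pool.Agent.H775.Six
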