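import Mathlib
import Pool.Agent.H775.Six.Laws

/-!
# Sets closed under conjugation by their elements, uniform bounds, iterated laws
-/

set_option autoImplicit false

namespace Pool.Agent.H775.Six

open Pool.Agent.W5h59.Bu (LFn LF2 rad rad_lf rad_quot le_rad E3)

universe u

variable {G : Type u} [Group G]

theorem self_gen {X : Set G} (hn : ∀ x ∈ X, ∀ y ∈ X, y⁻¹ * x * y ∈ X) (h4 : ∀ y ∈ X, y ^ 4 = 1) :
    ∀ g ∈ Subgroup.closure X, (∀ x ∈ X, g⁻¹ * x * g ∈ X) ∧ ∀ x ∈ X, g * x * g⁻¹ ∈ X := by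
  intro g hg
  induction hg using Subgroup.closure_induction with
  | mem y hy =>
    refine ⟨fun x hx => hn x hx y hy, fun x hx => ?_⟩
    have h1 := hn _ (hn _ (hn x hx y hy) y hy) y hy
    have h2 : y⁻¹ = y ^ 3 := by
      rw [inv_eq_iff_mul_eq_one, ← pow_succ']
      exact h4 y hy
    have h3 : y = y⁻¹ * y⁻¹ * y⁻¹ := by
      have : y = (y ^ 3)⁻¹ := by rw [← h2, inv_inv]
      conv_lhs => rw [this]
      group
    have h5 : y * x * y⁻¹ = y⁻¹ * (y⁻¹ * (y⁻¹ * x * y) * y) * y := by
      calc y * x * y⁻¹ = (y⁻¹ * y⁻¹ * y⁻¹) * x * y ^ 3 := by rw [← h3, h2]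
        _ = _ := by simp only [pow_succ, pow_zero, one_mul, mul_assoc]
    rw [h5]
    exact h1
  | one => exact ⟨fun x hx => by simpa using hx, fun x hx => by simpa using hx⟩
  | mul a b _ _ ha hb =>
    refine ⟨fun x hx => ?_, fun x hx => ?_⟩
    · have := hb.1 _ (ha.1 x hx)
      rwa [show b⁻¹ * (a⁻¹ * x * a) * b = (a * b)⁻¹ * x * (a * b) by group] at this
    · have := ha.2 _ (hb.2 x hx)
      rwa [show a * (b * x * b⁻¹) * a⁻¹ = (a * b) * x * (a * b)⁻¹ by group] at this
  | inv a _ ha =>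
    refine ⟨fun x hx => ?_, fun x hx => ?_⟩
    · rw [inv_inv]
      exact ha.2 x hx
    · rw [inv_inv]
      exact ha.1 x hx

/-- restriction to the subgroup generated by the set -/
theorem restrict {X : Set G}
    (h : (Subtype.val ⁻¹' X : Set (Subgroup.closure X)) ⊆ rad (Subgroup.closure X)) :
    LF2 (Subgroup.closure X) := by
  have h1 : Subgroup.closure (Subtype.val ⁻¹' X : Set (Subgroup.closure X)) = ⊤ :=
    Subgroup.closure_closure_coe_preimage
  have h2 : rad (Subgroup.closure X) = ⊤ := by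
    rw [eq_top_iff, ← h1]
    exact (Subgroup.closure_le _).2 h
  have hm : ∀ g : Subgroup.closure X, g ∈ rad (Subgroup.closure X) := fun g => by
    rw [h2]
    exact Subgroup.mem_top g
  exact LF2.sub (H := rad (Subgroup.closure X))
    { toFun := fun g => ⟨g, hm g⟩
      map_one' := rfl
      map_mul' := fun _ _ => rfl } (fun a b hab => congrArg Subtype.val hab) (rad_lf _)

theorem mem_down {X : Set G} {n : ℕ} {x : Fin n → Subgroup.closure X} {g : Subgroup.closure X}
    (hg : g ∈ Subgroup.closure (Set.range x)) :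
    (g : G) ∈ Subgroup.closure (Set.range fun i => (x i : G)) := by
  have : Subgroup.closure (Set.range fun i => (x i : G)) =
      (Subgroup.closure (Set.range x)).map (Subgroup.closure X).subtype := by
    rw [MonoidHom.map_closure, ← Set.range_comp]
    rfl
  rw [this]
  exact ⟨g, hg, rfl⟩

/-- **sets closed under conjugation by their elements, exponent four** -/
theorem self4 {X : Set G} (hn : ∀ x ∈ X, ∀ y ∈ X, y⁻¹ * x * y ∈ X)
    (h6 : ∀ x : Fin 6 → G, (∀ i, x i ∈ X) → Ex4 (Subgroup.closure (Set.range x))) :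
    LF2 (Subgroup.closure X) := by
  have h4 : ∀ x ∈ X, x ^ 4 = 1 := by
    intro x hx
    exact h6 (fun _ => x) (fun _ => hx) x (Subgroup.subset_closure ⟨0, rfl⟩)
  refine restrict (core4 ?_ ?_)
  · intro x hx g
    exact (self_gen hn h4 g g.2).1 _ hx
  · intro x hx g hg
    apply Subtype.ext
    have := h6 (fun i => (x i : G)) hx g (mem_down hg)
    simpa using this

/-- **sets closed under conjugation by their elements, involutions** -/
theorem self2 {X : Set G} (hn : ∀ x ∈ X, ∀ y ∈ X, y⁻¹ * x * y ∈ X) (h2 : ∀ x ∈ X, x ^ 2 = 1)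
    (h6 : ∀ x : Fin 6 → G, (∀ i, x i ∈ X) → ∀ a ∈ Subgroup.closure (Set.range x),
      ∀ b ∈ Subgroup.closure (Set.range x), ∀ c ∈ Subgroup.closure (Set.range x),
      a ^ 2 = 1 → b ^ 2 = 1 → c ^ 2 = 1 → (a * b * c) ^ 4 = 1) :
    LF2 (Subgroup.closure X) := by
  have h4 : ∀ x ∈ X, x ^ 4 = 1 := by
    intro x hx
    rw [show (4 : ℕ) = 2 * 2 from rfl, pow_mul, h2 x hx, one_pow]
  refine restrict (core ?_ ?_ ?_)
  · intro x hx g
    exact (self_gen hn h4 g g.2).1 _ hx
  · intro x hx
    apply Subtype.ext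
    have := h2 x hx
    rw [sq] at this
    simpa using this
  · intro x hx a b c ha hb hc
    have hd : ∀ w : Subgroup.closure (Set.range x), w * w = 1 →
        ((w : Subgroup.closure X) : G) ∈ Subgroup.closure (Set.range fun i => (x i : G)) ∧
          ((w : Subgroup.closure X) : G) ^ 2 = 1 := by
      intro w hw
      refine ⟨mem_down w.2, ?_⟩
      have := congrArg (fun t : Subgroup.closure (Set.range x) => ((t : Subgroup.closure X) : G)) hw
      rw [sq]
      simpa using this
    apply Subtype.ext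
    apply Subtype.ext
    have := h6 (fun i => (x i : G)) hx _ (hd a ha).1 _ (hd b hb).1 _ (hd c hc).1 (hd a ha).2
      (hd b hb).2 (hd c hc).2
    rw [show (4 : ℕ) = 2 + 2 from rfl, pow_add, sq] at this
    simpa using this

/-- **the orders are bounded in terms of the number of the elements** -/
theorem bound (r : ℕ) : ∃ N : ℕ, ∀ (G : Type u) [Group G] (X : Set G),
    (∀ x ∈ X, ∀ y ∈ X, y⁻¹ * x * y ∈ X) →
    (∀ x : Fin 6 → G, (∀ i, x i ∈ X) → Ex4 (Subgroup.closure (Set.range x))) →
    ∀ x : Fin r → G, (∀ i, x i ∈ X) → Nat.card (Subgroup.closure (Set.range x)) ≤ N := by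
  by_contra hcon
  push Not at hcon
  choose H inst X hn h6 x hx hc using hcon
  letI : ∀ N, Group (H N) := inst
  set Y : Set (∀ N, H N) := {f | ∀ N, f N ∈ X N} with hY
  have key : LF2 (Subgroup.closure Y) := by
    refine self4 ?_ ?_
    · intro f hf g hg N
      exact hn N _ (hf N) _ (hg N)
    · intro y hy g hg
      funext N
      rw [Pi.pow_apply, Pi.one_apply]
      refine h6 N (fun i => y i N) (fun i => hy i N) (g N) ?_
      have e : Subgroup.closure (Set.range fun i => y i N) =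
          (Subgroup.closure (Set.range y)).map (Pi.evalMonoidHom H N) := by
        rw [MonoidHom.map_closure, ← Set.range_comp]
        rfl
      rw [e]
      exact ⟨g, hg, rfl⟩
  set z : Fin r → ∀ N, H N := fun i N => x N i with hz
  have hfin : Finite (Subgroup.closure (Set.range z)) := by
    refine key.1.fin (Set.finite_range z) ?_
    rintro _ ⟨i, rfl⟩
    exact Subgroup.subset_closure fun N => hx N i
  set C := Nat.card (Subgroup.closure (Set.range z)) with hC
  have h1 := hc C
  have e : Subgroup.closure (Set.range (x C)) =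
      (Subgroup.closure (Set.range z)).map (Pi.evalMonoidHom H C) := by
    rw [MonoidHom.map_closure, ← Set.range_comp]
    rfl
  rw [e] at h1
  have h2 : Nat.card ((Subgroup.closure (Set.range z)).map (Pi.evalMonoidHom H C)) ≤ C :=
    Nat.card_le_card_of_surjective (fun g : Subgroup.closure (Set.range z) =>
      (⟨Pi.evalMonoidHom H C g, ⟨g, g.2, rfl⟩⟩ :
        (Subgroup.closure (Set.range z)).map (Pi.evalMonoidHom H C))) (by
      rintro ⟨_, g, hg, rfl⟩
      exact ⟨⟨g, hg⟩, rfl⟩)
  exact absurd h2 (not_le.2 h1)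

/-- the iterated words: fourth powers of products of at most `K` values -/
def iter (K : ℕ) (W : Set (FreeGroup ℕ)) : ℕ → Set (FreeGroup ℕ)
  | 0 => W
  | j + 1 => {v | ∃ l : List (FreeGroup ℕ), (∀ x ∈ l, x ∈ values (iter K W j) (FreeGroup ℕ)) ∧
      l.length ≤ K ∧ v = l.prod ^ 4}

/-- finitely many values of words are values for one homomorphism -/
theorem merge (W : Set (FreeGroup ℕ)) (l : List G) (hl : ∀ x ∈ l, x ∈ values W G) :
    ∃ (Θ : FreeGroup ℕ →* G) (l' : List (FreeGroup ℕ)),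
      (∀ x ∈ l', x ∈ values W (FreeGroup ℕ)) ∧ l'.length = l.length ∧ l'.map Θ = l := by
  have h1 : ∀ i : Fin l.length, ∃ w ∈ W, ∃ θ : FreeGroup ℕ →* G, l.get i = θ w :=
    fun i => hl _ (List.get_mem l i)
  choose w hw θ hθ using h1
  let σ : ℕ → FreeGroup ℕ →* FreeGroup ℕ := fun i =>
    FreeGroup.lift fun n => FreeGroup.of (Nat.pair i n)
  let Θ : FreeGroup ℕ →* G := FreeGroup.lift fun m =>
    if h : (Nat.unpair m).1 < l.length then θ ⟨(Nat.unpair m).1, h⟩ (FreeGroup.of (Nat.unpair m).2)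
    else 1
  have hΘ : ∀ i : Fin l.length, Θ.comp (σ i) = θ i := by
    intro i
    apply FreeGroup.ext_hom
    intro n
    simp [Θ, σ]
  refine ⟨Θ, List.ofFn fun i : Fin l.length => σ i (w i), ?_, by simp, ?_⟩
  · intro x hx
    rw [List.mem_ofFn] at hx
    obtain ⟨i, rfl⟩ := hx
    exact ⟨w i, hw i, σ i, rfl⟩
  · rw [List.map_ofFn]
    conv_rhs => rw [← List.ofFn_get l]
    congr 1
    funext i
    rw [Function.comp_apply, hθ i, ← hΘ i, MonoidHom.comp_apply]

theorem iterate {K : ℕ} (hK : ∀ (G : Type u) [Group G] (X : Set G),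
    (∀ x ∈ X, ∀ g : G, g⁻¹ * x * g ∈ X) → Pr K X → X ⊆ rad G) (W : Set (FreeGroup ℕ))
    (hW : ∀ (H : Type u) [Group H], (∀ x ∈ values W H, x = 1) → LFn H) (j : ℕ) :
    ∀ (H : Type u) [Group H], (∀ x ∈ values (iter K W j) H, x = 1) → LFn H := by
  induction j with
  | zero => exact hW
  | succ j ih =>
    intro H _ hH
    refine words hK (iter K W j) ih ?_
    intro l hl hlK
    obtain ⟨Θ, l', h1, h2, h3⟩ := merge _ l hl
    have h4 := hH (Θ (l'.prod ^ 4)) ⟨_, ⟨l', h1, h2 ▸ hlK, rfl⟩, Θ, rfl⟩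
    rw [map_pow, map_list_prod, h3] at h4
    exact h4

end Pool.Agent.H775.Six
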