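import Mathlib
import Pool.Agent.H775.Six.Core
import Pool.Agent.H324.DT.Main
import Pool.Agent.H325.P
import Pool.Graph.R_seed8.H848.PS.Main

/-!
# Normal sets, any four elements of which generate a group of exponent dividing six

Let `X` be such a set; suppose that the locally finite radical of the group is trivial.  For `x, y` in
`X` the element `t = (x ^ 3 y ^ 3) ^ 2` and its conjugates are in the normal `3`-subgroups of the groups
of exponent six generated by `x, y, x ^ g, y ^ g`, so `[t, g] ^ 3 = 1` for all `g`, and `t = 1` by the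
theorem on left `3`-Engel elements.  So the cubes commute, and `x ^ 3 = 1`.  Now `(x y) ^ 3` is in
the normal `2`-subgroup and commutes with its conjugates, so `(x y) ^ 3 = 1`; finally
`[x, g] ^ 3 = 1`, and `x = 1`.
-/

set_option autoImplicit false

namespace Pool.Agent.H775.Six

open Pool.Agent.W5h59.Bu (LFn LF2 rad_lf le_rad mem_rad)
open Pool.Agent.H325.P (radL radL_lf)

universe u

variable {G : Type u} [Group G]

/-- the elements of a group of exponent six whose order is a power of three -/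
theorem three_of {x : G} (h6 : x ^ 6 = 1) {k : ℕ} (hk : x ^ 3 ^ k = 1) : x ^ 3 = 1 := by
  have h1 : orderOf x ∣ 6 := orderOf_dvd_of_pow_eq_one h6
  have h2 : orderOf x ∣ 3 ^ k := orderOf_dvd_of_pow_eq_one hk
  have h3 : Nat.Coprime (orderOf x) 2 := Nat.Coprime.coprime_dvd_left h2 ((by norm_num : Nat.Coprime 3 2).pow_left k)
  have h4 : orderOf x ∣ 3 := (h3.dvd_of_dvd_mul_left (m := 2) (n := 3) (by simpa using h1))
  exact orderOf_dvd_iff_pow_eq_one.1 h4

theorem two_of {x : G} (h6 : x ^ 6 = 1) {k : ℕ} (hk : x ^ 2 ^ k = 1) : x ^ 2 = 1 := by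
  have h1 : orderOf x ∣ 6 := orderOf_dvd_of_pow_eq_one h6
  have h2 : orderOf x ∣ 2 ^ k := orderOf_dvd_of_pow_eq_one hk
  have h3 : Nat.Coprime (orderOf x) 3 := Nat.Coprime.coprime_dvd_left h2 ((by norm_num : Nat.Coprime 2 3).pow_left k)
  have h4 : orderOf x ∣ 2 := (h3.dvd_of_dvd_mul_right (m := 2) (n := 3) (by simpa using h1))
  exact orderOf_dvd_iff_pow_eq_one.1 h4

/-- **exponent six, involutions** -/
theorem f1 (h : ∀ g : G, g ^ 6 = 1) {a b c d : G} (ha : a ^ 2 = 1) (hb : b ^ 2 = 1) (hc : c ^ 2 = 1)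
    (hd : d ^ 2 = 1) : ((a * b) ^ 2 * (c * d) ^ 2) ^ 3 = 1 := by
  have h2 : ∀ a b : G, a ^ 2 = 1 → b ^ 2 = 1 → (a * b) ^ 6 = 1 := fun a b _ _ => h _
  have h9 := Pool.Agent.H324.Alg.h9_of (G := G) (n := 6) (by norm_num) h
  have m1 : ∀ a b : G, a ^ 2 = 1 → b ^ 2 = 1 → (a * b) ^ 2 ∈ Pool.Agent.H324.Alg.R G := by
    intro a b ha hb
    exact Pool.Agent.H324.Alg.sq_mem_r h2 _ (mul_mem (Subgroup.subset_closure ha) (Subgroup.subset_closure hb))
  obtain ⟨k, hk⟩ := (Pool.Agent.H324.Alg.r_lf h2 h9).2 _ (mul_mem (m1 a b ha hb) (m1 c d hc hd))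
  exact three_of (h _) hk

/-- **exponent six, elements of order three** -/
theorem f2 (h : ∀ g : G, g ^ 6 = 1) {a b c d : G} (ha : a ^ 3 = 1) (hb : b ^ 3 = 1) (hc : c ^ 3 = 1)
    (hd : d ^ 3 = 1) : Commute ((a * b) ^ 3) ((c * d) ^ 3) := by
  obtain ⟨⟨N, -, -, -, h2, h3⟩, -⟩ := H848.PS.main (G := G) (fun a b _ _ => h (a * b))
  have e2 : ∀ x ∈ N, x ^ 2 = 1 := by
    intro x hx
    obtain ⟨k, hk⟩ := h2 x hx
    exact two_of (h x) hk
  have ma := h3 _ (mul_mem (Subgroup.subset_closure ha) (Subgroup.subset_closure hb))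
  have mc := h3 _ (mul_mem (Subgroup.subset_closure hc) (Subgroup.subset_closure hd))
  have e := e2 _ (mul_mem ma mc)
  have ea := e2 _ ma
  have ec := e2 _ mc
  rw [sq] at e ea ec
  exact Pool.Agent.W5h59.Bu.co_of_im ea ec e

theorem le_radL {M : Subgroup G} (hM : M.Normal) (h : LFn M) : M ≤ radL G :=
  fun _ hg => ⟨M, hM, h, hg⟩

/-- the quotient by the locally finite radical has trivial radical -/
theorem radL_quot (G : Type u) [Group G] : radL (G ⧸ radL G) = ⊥ := by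
  rw [eq_bot_iff]
  rintro x ⟨M, hM, h1, h2⟩
  obtain ⟨g, rfl⟩ := QuotientGroup.mk'_surjective _ x
  set N := M.comap (QuotientGroup.mk' (radL G)) with hN
  have hNn : N.Normal := hM.comap _
  have h3 : LFn N := by
    have : ((radL G).subgroupOf N).Normal := inferInstance
    refine LFn.ext ((radL G).subgroupOf N) ?_ ?_
    · refine LFn.sub (H := radL G)
        { toFun := fun x => ⟨((x : N) : G), Subgroup.mem_subgroupOf.1 x.2⟩
          map_one' := rfl
          map_mul' := fun _ _ => rfl } ?_ (radL_lf G)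
      intro x y hxy
      exact Subtype.ext (Subtype.ext (congrArg (fun z : radL G => (z : G)) hxy))
    · obtain ⟨f, hf⟩ : ∃ f : N →* M, ∀ x : N, ((f x : M) : G ⧸ radL G) = ((x : G) : G ⧸ radL G) :=
        ⟨{ toFun := fun x => ⟨((x : G) : G ⧸ radL G), x.2⟩
           map_one' := rfl
           map_mul' := fun _ _ => rfl }, fun _ => rfl⟩
      have hk : (radL G).subgroupOf N ≤ f.ker := by
        intro x hx
        rw [MonoidHom.mem_ker]
        apply Subtype.ext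
        rw [hf]
        exact (QuotientGroup.eq_one_iff _).2 (Subgroup.mem_subgroupOf.1 hx)
      refine LFn.sub (H := M) (QuotientGroup.lift _ f hk) ?_ h1
      rw [← MonoidHom.ker_eq_bot_iff, eq_bot_iff]
      intro q hq
      obtain ⟨x, rfl⟩ := QuotientGroup.mk'_surjective _ q
      rw [MonoidHom.mem_ker, QuotientGroup.mk'_apply, QuotientGroup.lift_mk] at hq
      have h4 := congrArg (fun z : M => (z : G ⧸ radL G)) hq
      simp only [hf] at h4
      rw [Subgroup.mem_bot, QuotientGroup.mk'_apply, QuotientGroup.eq_one_iff,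
        Subgroup.mem_subgroupOf]
      exact (QuotientGroup.eq_one_iff _).1 h4
  have h4 : g ∈ radL G := le_radL hNn h3 h2
  rw [Subgroup.mem_bot]
  exact (QuotientGroup.eq_one_iff _).2 h4

/-- the exponent of a subgroup -/
def Ex (e : ℕ) (H : Subgroup G) : Prop := ∀ g ∈ H, g ^ e = 1

theorem rad2_le : Pool.Agent.W5h59.Bu.rad G ≤ radL G :=
  le_radL inferInstance (rad_lf G).1

theorem rad3_le : Pool.Agent.H325.rad G ≤ radL G :=
  le_radL inferInstance (Pool.Agent.H325.rad_lf G).1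

theorem core6' {X : Set G} (hG : radL G = ⊥) (hn : ∀ x ∈ X, ∀ g : G, g⁻¹ * x * g ∈ X)
    (h6 : ∀ x : Fin 4 → G, (∀ i, x i ∈ X) → Ex 6 (Subgroup.closure (Set.range x))) :
    ∀ x ∈ X, x = 1 := by
  have t2 : ∀ x ∈ Pool.Agent.W5h59.Bu.rad G, x = 1 := fun x hx => by
    have := rad2_le hx
    rw [hG] at this
    exact Subgroup.mem_bot.1 this
  have t3 : ∀ x ∈ Pool.Agent.H325.rad G, x = 1 := fun x hx => by
    have := rad3_le hx
    rw [hG] at this
    exact Subgroup.mem_bot.1 this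
  have hM : ∀ {a b c d : G}, a ∈ X → b ∈ X → c ∈ X → d ∈ X → ∃ M : Subgroup G, a ∈ M ∧ b ∈ M ∧
      c ∈ M ∧ d ∈ M ∧ ∀ g : M, g ^ 6 = 1 := by
    intro a b c d ha hb hc hd
    have hm : ∀ i : Fin 4, (![a, b, c, d] i) ∈ Subgroup.closure (Set.range ![a, b, c, d]) :=
      fun i => Subgroup.subset_closure ⟨i, rfl⟩
    refine ⟨Subgroup.closure (Set.range ![a, b, c, d]), hm 0, hm 1, hm 2, hm 3, ?_⟩
    intro g
    apply Subtype.ext
    have h := h6 ![a, b, c, d] ?_ g g.2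
    · simpa using h
    · intro i
      fin_cases i
      · exact ha
      · exact hb
      · exact hc
      · exact hd
  have p6 : ∀ x ∈ X, x ^ 6 = 1 := by
    intro x hx
    obtain ⟨M, ha, -, -, -, h⟩ := hM hx hx hx hx
    exact congrArg Subtype.val (h ⟨x, ha⟩)
  have i3 : ∀ x ∈ X, (x ^ 3)⁻¹ = x ^ 3 := by
    intro x hx
    rw [inv_eq_iff_mul_eq_one, ← pow_add]
    exact p6 x hx
  have cjp : ∀ (x g : G) (n : ℕ), g⁻¹ * x ^ n * g = (g⁻¹ * x * g) ^ n := by
    intro x g n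
    have := conj_pow (i := n) (a := g⁻¹) (b := x)
    rw [inv_inv] at this
    exact this.symm
  -- the cubes commute
  have s1 : ∀ x ∈ X, ∀ y ∈ X, (x ^ 3 * y ^ 3) ^ 2 = 1 := by
    intro x hx y hy
    apply t3
    apply Pool.Agent.H325.H1.rad
    have key : ∀ g : G, ((x ^ 3 * y ^ 3) ^ 2) ^ 3 = 1 ∧
        ((y ^ 3 * x ^ 3) ^ 2 * ((g⁻¹ * x * g) ^ 3 * (g⁻¹ * y * g) ^ 3) ^ 2) ^ 3 = 1 := by
      intro g
      obtain ⟨M, ma, mb, mc, md, h⟩ := hM hx hy (hn x hx g) (hn y hy g)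
      have q : ∀ w : M, (w ^ 3) ^ 2 = 1 := fun w => by
        rw [← pow_mul]
        exact h w
      have h1 := f1 h (q ⟨y, mb⟩) (q ⟨x, ma⟩) (q ⟨_, mc⟩) (q ⟨_, md⟩)
      have h2 := h ((⟨x, ma⟩ : M) ^ 3 * ⟨y, mb⟩ ^ 3)
      refine ⟨?_, ?_⟩
      · rw [← pow_mul]
        exact congrArg Subtype.val h2
      · exact congrArg Subtype.val h1
    refine ⟨(key 1).1, fun g => ?_⟩
    have e : Pool.Agent.R669.Sw.k ((x ^ 3 * y ^ 3) ^ 2) g =
        (y ^ 3 * x ^ 3) ^ 2 * ((g⁻¹ * x * g) ^ 3 * (g⁻¹ * y * g) ^ 3) ^ 2 := by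
      rw [← cjp, ← cjp]
      unfold Pool.Agent.R669.Sw.k
      have e1 : ((x ^ 3 * y ^ 3) ^ 2)⁻¹ = (y ^ 3 * x ^ 3) ^ 2 := by
        rw [← inv_pow, mul_inv_rev, i3 x hx, i3 y hy]
      rw [e1]
      have e2 : (g⁻¹ * x ^ 3 * g * (g⁻¹ * y ^ 3 * g)) = g⁻¹ * (x ^ 3 * y ^ 3) * g := by group
      rw [e2, ← cjp]
      simp only [mul_assoc]
    rw [e]
    exact (key g).2
  -- the cubes are trivial
  have s2 : ∀ x ∈ X, x ^ 3 = 1 := by
    intro x hx
    apply t2
    have hi : ∀ x ∈ X, x ^ 3 * x ^ 3 = 1 := fun x hx => by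
      rw [← pow_add]
      exact p6 x hx
    refine mem_rad _ (hi x hx) ?_
    intro g
    have hy : g * x * g⁻¹ ∈ X := by
      have := hn x hx g⁻¹
      rwa [inv_inv] at this
    have e : g * x ^ 3 * g⁻¹ = (g * x * g⁻¹) ^ 3 := (conj_pow).symm
    rw [e]
    have h := s1 x hx _ hy
    rw [sq] at h
    exact Pool.Agent.W5h59.Bu.co_of_im (hi x hx) (hi _ hy) h
  -- products
  have s3 : ∀ x ∈ X, ∀ y ∈ X, (x⁻¹ * y) ^ 3 = 1 := by
    intro x hx y hy
    apply t2
    refine mem_rad _ ?_ ?_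
    · obtain ⟨M, ma, mb, -, -, h⟩ := hM hx hy hx hx
      have := congrArg Subtype.val (h ((⟨x, ma⟩ : M)⁻¹ * ⟨y, mb⟩))
      rw [← pow_add]
      exact this
    · intro g
      obtain ⟨M, ma, mb, mc, md, h⟩ := hM hx hy (hn x hx g⁻¹) (hn y hy g⁻¹)
      have q : ∀ (w : G) (hw : w ∈ X) (mw : w ∈ M), (⟨w, mw⟩ : M) ^ 3 = 1 := fun w hw mw =>
        Subtype.ext (s2 w hw)
      have qi : ∀ (w : G) (hw : w ∈ X) (mw : w ∈ M), ((⟨w, mw⟩ : M)⁻¹) ^ 3 = 1 := fun w hw mw => by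
        rw [inv_pow, q w hw mw, inv_one]
      have h1 := f2 h (qi _ hx ma) (q _ hy mb) (qi _ (hn x hx g⁻¹) mc) (q _ (hn y hy g⁻¹) md)
      have h2 := congrArg Subtype.val h1.eq
      have e : g * (x⁻¹ * y) ^ 3 * g⁻¹ = ((g⁻¹⁻¹ * x * g⁻¹)⁻¹ * (g⁻¹⁻¹ * y * g⁻¹)) ^ 3 := by
        rw [← conj_pow]
        congr 1
        group
      rw [e]
      exact h2
  intro x hx
  apply t3
  apply Pool.Agent.H325.H1.rad
  refine ⟨s2 x hx, fun g => ?_⟩
  have := s3 x hx _ (hn x hx g)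
  have e : Pool.Agent.R669.Sw.k x g = x⁻¹ * (g⁻¹ * x * g) := by
    unfold Pool.Agent.R669.Sw.k
    simp only [mul_assoc]
  rw [e]
  exact this

/-- the hypothesis passes to quotients -/
theorem quot_ex {e n : ℕ} {X : Set G} (N : Subgroup G) [N.Normal]
    (h6 : ∀ x : Fin n → G, (∀ i, x i ∈ X) → Ex e (Subgroup.closure (Set.range x))) :
    ∀ x : Fin n → G ⧸ N, (∀ i, x i ∈ (QuotientGroup.mk' N) '' X) →
      Ex e (Subgroup.closure (Set.range x)) := by
  intro y hy g hg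
  choose x hx hyx using hy
  have e : Set.range y = (QuotientGroup.mk' N) '' Set.range x := by
    rw [← Set.range_comp]
    congr 1
    funext i
    exact (hyx i).symm
  rw [e, ← MonoidHom.map_closure] at hg
  obtain ⟨w, hw, rfl⟩ := hg
  rw [← map_pow, h6 x hx w hw, map_one]

theorem quot_n {X : Set G} (N : Subgroup G) [N.Normal] (hn : ∀ x ∈ X, ∀ g : G, g⁻¹ * x * g ∈ X) :
    ∀ x ∈ (QuotientGroup.mk' N) '' X, ∀ g : G ⧸ N, g⁻¹ * x * g ∈ (QuotientGroup.mk' N) '' X := by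
  rintro _ ⟨x, hx, rfl⟩ y
  obtain ⟨g, rfl⟩ := QuotientGroup.mk'_surjective N y
  exact ⟨g⁻¹ * x * g, hn x hx g, by rw [map_mul, map_mul, map_inv]⟩

/-- **normal sets, any four elements of which generate a group of exponent dividing six** -/
theorem core6 {X : Set G} (hn : ∀ x ∈ X, ∀ g : G, g⁻¹ * x * g ∈ X)
    (h6 : ∀ x : Fin 4 → G, (∀ i, x i ∈ X) → Ex 6 (Subgroup.closure (Set.range x))) :
    X ⊆ radL G := by
  intro x hx
  have h1 := core6' (radL_quot G) (quot_n (radL G) hn) (quot_ex (radL G) h6) _ ⟨x, hx, rfl⟩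
  rw [QuotientGroup.mk'_apply, QuotientGroup.eq_one_iff] at h1
  exact h1

/-- **normal sets, any two elements of which generate a group of exponent dividing three** -/
theorem core3 {X : Set G} (hn : ∀ x ∈ X, ∀ g : G, g⁻¹ * x * g ∈ X)
    (h3 : ∀ x : Fin 2 → G, (∀ i, x i ∈ X) → Ex 3 (Subgroup.closure (Set.range x))) :
    X ⊆ Pool.Agent.H325.rad G := by
  intro x hx
  have key : ∀ y ∈ X, x ^ 3 = 1 ∧ (x⁻¹ * y) ^ 3 = 1 := by
    intro y hy
    have hm : ∀ i : Fin 2, (![x, y] i) ∈ Subgroup.closure (Set.range ![x, y]) :=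
      fun i => Subgroup.subset_closure ⟨i, rfl⟩
    have h := h3 ![x, y] (by
      intro i
      fin_cases i
      · exact hx
      · exact hy)
    exact ⟨h x (hm 0), h _ (mul_mem (inv_mem (hm 0)) (hm 1))⟩
  apply Pool.Agent.H325.H1.rad
  refine ⟨(key x hx).1, fun g => ?_⟩
  have := (key _ (hn x hx g)).2
  have e : Pool.Agent.R669.Sw.k x g = x⁻¹ * (g⁻¹ * x * g) := by
    unfold Pool.Agent.R669.Sw.k
    simp only [mul_assoc]
  rw [e]
  exact this

/-- normal sets, any two elements of which generate a group of exponent dividing two -/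
theorem core2 {X : Set G} (hn : ∀ x ∈ X, ∀ g : G, g⁻¹ * x * g ∈ X)
    (h2 : ∀ x : Fin 2 → G, (∀ i, x i ∈ X) → Ex 2 (Subgroup.closure (Set.range x))) :
    X ⊆ Pool.Agent.W5h59.Bu.rad G := by
  intro x hx
  have key : ∀ y ∈ X, x * x = 1 ∧ y * y = 1 ∧ x * y * (x * y) = 1 := by
    intro y hy
    have hm : ∀ i : Fin 2, (![x, y] i) ∈ Subgroup.closure (Set.range ![x, y]) :=
      fun i => Subgroup.subset_closure ⟨i, rfl⟩
    have h := h2 ![x, y] (by
      intro i
      fin_cases i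
      · exact hx
      · exact hy)
    refine ⟨?_, ?_, ?_⟩
    · rw [← sq]
      exact h x (hm 0)
    · rw [← sq]
      exact h y (hm 1)
    · rw [← sq]
      exact h _ (mul_mem (hm 0) (hm 1))
  refine mem_rad _ (key x hx).1 ?_
  intro g
  have hy : g * x * g⁻¹ ∈ X := by
    have := hn x hx g⁻¹
    rwa [inv_inv] at this
  obtain ⟨h1, h2, h3⟩ := key _ hy
  exact Pool.Agent.W5h59.Bu.co_of_im h1 h2 h3

end Pool.Agent.H775.Six
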