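import Mathlib
import Pool.Agent.H775.Six.E6
import Pool.Agent.H775.Six.Bound

/-!
# The general version: the exponents `1, 2, 3, 4, 6`
-/

set_option autoImplicit false

namespace Pool.Agent.H775.Six

open Pool.Agent.W5h59.Bu (LFn LF2 closure_fin closure_fin_set)
open Pool.Agent.H325.P (radL radL_lf)
open scoped commutatorElement

universe u

/-- the exponents -/
def Ok (e : ℕ) : Prop := e = 1 ∨ e = 2 ∨ e = 3 ∨ e = 4 ∨ e = 6

theorem Ok.dvd {e : ℕ} (h : Ok e) : e ∣ 4 ∨ e ∣ 6 := by
  rcases h with rfl | rfl | rfl | rfl | rfl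
  · exact Or.inl (by norm_num)
  · exact Or.inl (by norm_num)
  · exact Or.inr (by norm_num)
  · exact Or.inl (by norm_num)
  · exact Or.inr (by norm_num)

theorem Ok.pos {e : ℕ} (h : Ok e) : 1 ≤ e := by
  rcases h with rfl | rfl | rfl | rfl | rfl <;> norm_num

theorem pow_of_dvd {G : Type u} [Group G] {e f : ℕ} (h : e ∣ f) {x : G} (hx : x ^ e = 1) : x ^ f = 1 := by
  obtain ⟨k, rfl⟩ := h
  rw [pow_mul, hx, one_pow]

/-- Burnside, Sanov, M. Hall -/
theorem Ok.fin {e : ℕ} (h : Ok e) (K : Type u) [Group K] (hK : Group.FG K) (hx : ∀ g : K, g ^ e = 1) :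
    Finite K := by
  rcases h.dvd with h | h
  · exact H848.PS.lf4 K hK fun g => pow_of_dvd h (hx g)
  · exact H848.PS.lf6 K hK fun g => pow_of_dvd h (hx g)

theorem Ok.lfn {e : ℕ} (h : Ok e) (K : Type u) [Group K] (hx : ∀ g : K, g ^ e = 1) : LFn K := by
  intro S hS
  refine h.fin _ ?_ ?_
  · rw [Group.fg_iff_subgroup_fg]
    exact (Subgroup.fg_iff _).2 ⟨S, rfl, hS⟩
  · rintro ⟨x, -⟩
    exact Subtype.ext (hx x)

variable {G : Type u} [Group G]

/-- the number of elements which is considered -/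
def num (e : ℕ) : ℕ := if e = 4 then 6 else if e = 6 then 4 else 2

theorem num_pos (e : ℕ) : 0 < num e := by
  unfold num
  split_ifs <;> norm_num

/-- the locally finite `2`-radical -/
theorem coreE2 {e : ℕ} (he : Ok e) (h4 : e ∣ 4) {X : Set G} (hn : ∀ x ∈ X, ∀ g : G, g⁻¹ * x * g ∈ X)
    (h6 : ∀ x : Fin (num e) → G, (∀ i, x i ∈ X) → Ex e (Subgroup.closure (Set.range x))) :
    X ⊆ Pool.Agent.W5h59.Bu.rad G := by
  rcases he with rfl | rfl | rfl | rfl | rfl
  · exact core2 hn fun x hx g hg => pow_of_dvd (by norm_num) (h6 x hx g hg)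
  · exact core2 hn fun x hx g hg => h6 x hx g hg
  · norm_num at h4
  · exact core4 hn fun x hx g hg => h6 x hx g hg
  · norm_num at h4

/-- the locally finite `3`-radical -/
theorem coreE3 {X : Set G} (hn : ∀ x ∈ X, ∀ g : G, g⁻¹ * x * g ∈ X)
    (h6 : ∀ x : Fin (num 3) → G, (∀ i, x i ∈ X) → Ex 3 (Subgroup.closure (Set.range x))) :
    X ⊆ Pool.Agent.H325.rad G :=
  core3 hn fun x hx g hg => h6 x hx g hg

/-- **the main step** -/
theorem coreE {e : ℕ} (he : Ok e) {X : Set G} (hn : ∀ x ∈ X, ∀ g : G, g⁻¹ * x * g ∈ X)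
    (h6 : ∀ x : Fin (num e) → G, (∀ i, x i ∈ X) → Ex e (Subgroup.closure (Set.range x))) :
    X ⊆ radL G := by
  by_cases h4 : e ∣ 4
  · exact (coreE2 he h4 hn h6).trans (by
      intro x hx
      exact rad2_le hx)
  · rcases he with rfl | rfl | rfl | rfl | rfl
    · norm_num at h4
    · norm_num at h4
    · exact (coreE3 hn h6).trans (by
        intro x hx
        exact rad3_le hx)
    · norm_num at h4
    · exact core6 hn fun x hx g hg => h6 x hx g hg

theorem self_genE {e : ℕ} {X : Set G} (hn : ∀ x ∈ X, ∀ y ∈ X, y⁻¹ * x * y ∈ X)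
    (hf : ∀ y ∈ X, y ^ (e + 1) = 1) :
    ∀ g ∈ Subgroup.closure X, (∀ x ∈ X, g⁻¹ * x * g ∈ X) ∧ ∀ x ∈ X, g * x * g⁻¹ ∈ X := by
  have pw : ∀ (n : ℕ), ∀ x ∈ X, ∀ y ∈ X, (y ^ n)⁻¹ * x * y ^ n ∈ X := by
    intro n
    induction n with
    | zero => intro x hx y _; simpa using hx
    | succ n ih =>
      intro x hx y hy
      have := hn _ (ih x hx y hy) y hy
      rwa [show y⁻¹ * ((y ^ n)⁻¹ * x * y ^ n) * y = (y ^ (n + 1))⁻¹ * x * y ^ (n + 1) by
        rw [pow_succ]; group] at this
  intro g hg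
  induction hg using Subgroup.closure_induction with
  | mem y hy =>
    refine ⟨fun x hx => hn x hx y hy, fun x hx => ?_⟩
    have h1 := pw e x hx y hy
    have h2 : y⁻¹ = y ^ e := by
      rw [inv_eq_iff_mul_eq_one, ← pow_succ']
      exact hf y hy
    rwa [← h2, inv_inv] at h1
  | one => exact ⟨fun x hx => by simpa using hx, fun x hx => by simpa using hx⟩
  | mul a b _ _ ha hb =>
    refine ⟨fun x hx => ?_, fun x hx => ?_⟩
    · have := hb.1 _ (ha.1 x hx)
      rwa [show b⁻¹ * (a⁻¹ * x * a) * b = (a * b)⁻¹ * x * (a * b) by group] at this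
    · have := ha.2 _ (hb.2 x hx)
      rwa [show a * (b * x * b⁻¹) * a⁻¹ = (a * b) * x * (a * b)⁻¹ by group] at this
  | inv a _ ha =>
    refine ⟨fun x hx => ?_, fun x hx => ?_⟩
    · rw [inv_inv]
      exact ha.2 x hx
    · rw [inv_inv]
      exact ha.1 x hx

/-- restriction to the subgroup generated by the set -/
theorem down {e : ℕ} (he : Ok e) {X : Set G} (hn : ∀ x ∈ X, ∀ y ∈ X, y⁻¹ * x * y ∈ X)
    (h6 : ∀ x : Fin (num e) → G, (∀ i, x i ∈ X) → Ex e (Subgroup.closure (Set.range x))) :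
    (∀ x ∈ (Subtype.val ⁻¹' X : Set (Subgroup.closure X)), ∀ g : Subgroup.closure X,
      g⁻¹ * x * g ∈ (Subtype.val ⁻¹' X : Set (Subgroup.closure X))) ∧
    ∀ x : Fin (num e) → Subgroup.closure X,
      (∀ i, x i ∈ (Subtype.val ⁻¹' X : Set (Subgroup.closure X))) →
      Ex e (Subgroup.closure (Set.range x)) := by
  obtain ⟨f, hf⟩ : ∃ f, e = f + 1 := ⟨e - 1, by have := he.pos; omega⟩
  have h4 : ∀ x ∈ X, x ^ (f + 1) = 1 := by
    intro x hx
    rw [← hf]
    exact h6 (fun _ => x) (fun _ => hx) x (Subgroup.subset_closure ⟨⟨0, num_pos e⟩, rfl⟩)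
  refine ⟨?_, ?_⟩
  · intro x hx g
    exact (self_genE hn h4 g g.2).1 _ hx
  · intro x hx g hg
    apply Subtype.ext
    have := h6 (fun i => (x i : G)) hx g (mem_down hg)
    simpa using this

theorem pre_closure (X : Set G) :
    Subgroup.closure (Subtype.val ⁻¹' X : Set (Subgroup.closure X)) = ⊤ :=
  Subgroup.closure_closure_coe_preimage

/-- **sets closed under conjugation by their elements** -/
theorem selfE {e : ℕ} (he : Ok e) {X : Set G} (hn : ∀ x ∈ X, ∀ y ∈ X, y⁻¹ * x * y ∈ X)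
    (h6 : ∀ x : Fin (num e) → G, (∀ i, x i ∈ X) → Ex e (Subgroup.closure (Set.range x))) :
    LFn (Subgroup.closure X) := by
  obtain ⟨d1, d2⟩ := down he hn h6
  have h := coreE he d1 d2
  have h2 : radL (Subgroup.closure X) = ⊤ := by
    rw [eq_top_iff, ← pre_closure X]
    exact (Subgroup.closure_le _).2 h
  have hm : ∀ g : Subgroup.closure X, g ∈ radL (Subgroup.closure X) := fun g => by
    rw [h2]
    exact Subgroup.mem_top g
  exact LFn.sub (H := radL (Subgroup.closure X))
    { toFun := fun g => ⟨g, hm g⟩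
      map_one' := rfl
      map_mul' := fun _ _ => rfl } (fun a b hab => congrArg Subtype.val hab) (radL_lf _)

/-- exponents dividing four -/
theorem selfE2 {e : ℕ} (he : Ok e) (h4 : e ∣ 4) {X : Set G}
    (hn : ∀ x ∈ X, ∀ y ∈ X, y⁻¹ * x * y ∈ X)
    (h6 : ∀ x : Fin (num e) → G, (∀ i, x i ∈ X) → Ex e (Subgroup.closure (Set.range x))) :
    IsPGroup 2 (Subgroup.closure X) := by
  obtain ⟨d1, d2⟩ := down he hn h6
  exact (restrict (coreE2 he h4 d1 d2)).2

/-- exponent three -/
theorem selfE3 {X : Set G} (hn : ∀ x ∈ X, ∀ y ∈ X, y⁻¹ * x * y ∈ X)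
    (h6 : ∀ x : Fin (num 3) → G, (∀ i, x i ∈ X) → Ex 3 (Subgroup.closure (Set.range x))) :
    IsPGroup 3 (Subgroup.closure X) := by
  obtain ⟨d1, d2⟩ := down (Or.inr (Or.inr (Or.inl rfl))) hn h6
  have h := coreE3 d1 d2
  have h2 : Pool.Agent.H325.rad (Subgroup.closure X) = ⊤ := by
    rw [eq_top_iff, ← pre_closure X]
    exact (Subgroup.closure_le _).2 h
  have hm : ∀ g : Subgroup.closure X, g ∈ Pool.Agent.H325.rad (Subgroup.closure X) := fun g => by
    rw [h2]
    exact Subgroup.mem_top g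
  exact (Pool.Agent.H325.LF3.sub (H := Pool.Agent.H325.rad (Subgroup.closure X))
    { toFun := fun g => ⟨g, hm g⟩
      map_one' := rfl
      map_mul' := fun _ _ => rfl } (fun a b hab => congrArg Subtype.val hab)
      (Pool.Agent.H325.rad_lf _)).2

/-- the radical contains the subgroup generated by a normal set: `p`-groups -/
theorem selfP {e : ℕ} (he : Ok e) {X : Set G} (hn : ∀ x ∈ X, ∀ y ∈ X, y⁻¹ * x * y ∈ X)
    (h6 : ∀ x : Fin (num e) → G, (∀ i, x i ∈ X) → Ex e (Subgroup.closure (Set.range x))) :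
    (e ∣ 4 → IsPGroup 2 (Subgroup.closure X)) ∧ (e = 3 → IsPGroup 3 (Subgroup.closure X)) := by
  refine ⟨fun h => selfE2 he h hn h6, ?_⟩
  rintro rfl
  exact selfE3 hn h6

/-- **uniform bounds** -/
theorem boundE (r : ℕ) : ∃ N : ℕ, ∀ e : ℕ, Ok e → ∀ (G : Type u) [Group G] (X : Set G),
    (∀ x ∈ X, ∀ y ∈ X, y⁻¹ * x * y ∈ X) →
    (∀ x : Fin (num e) → G, (∀ i, x i ∈ X) → Ex e (Subgroup.closure (Set.range x))) →
    ∀ x : Fin r → G, (∀ i, x i ∈ X) → Nat.card (Subgroup.closure (Set.range x)) ≤ N := by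
  have one : ∀ e : ℕ, Ok e → ∃ N : ℕ, ∀ (G : Type u) [Group G] (X : Set G),
      (∀ x ∈ X, ∀ y ∈ X, y⁻¹ * x * y ∈ X) →
      (∀ x : Fin (num e) → G, (∀ i, x i ∈ X) → Ex e (Subgroup.closure (Set.range x))) →
      ∀ x : Fin r → G, (∀ i, x i ∈ X) → Nat.card (Subgroup.closure (Set.range x)) ≤ N := by
    intro e he
    by_contra hcon
    push Not at hcon
    choose H inst X hn h6 x hx hc using hcon
    letI : ∀ N, Group (H N) := inst
    set Y : Set (∀ N, H N) := {f | ∀ N, f N ∈ X N} with hY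
    have key : LFn (Subgroup.closure Y) := by
      refine selfE he ?_ ?_
      · intro f hf g hg N
        exact hn N _ (hf N) _ (hg N)
      · intro y hy g hg
        funext N
        rw [Pi.pow_apply, Pi.one_apply]
        refine h6 N (fun i => y i N) (fun i => hy i N) (g N) ?_
        have e : Subgroup.closure (Set.range fun i => y i N) =
            (Subgroup.closure (Set.range y)).map (Pi.evalMonoidHom H N) := by
          rw [MonoidHom.map_closure, ← Set.range_comp]
          rfl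
        rw [e]
        exact ⟨g, hg, rfl⟩
    set z : Fin r → ∀ N, H N := fun i N => x N i with hz
    have hfin : Finite (Subgroup.closure (Set.range z)) := by
      refine key.fin (Set.finite_range z) ?_
      rintro _ ⟨i, rfl⟩
      exact Subgroup.subset_closure fun N => hx N i
    set C := Nat.card (Subgroup.closure (Set.range z)) with hC
    have h1 := hc C
    have e : Subgroup.closure (Set.range (x C)) =
        (Subgroup.closure (Set.range z)).map (Pi.evalMonoidHom H C) := by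
      rw [MonoidHom.map_closure, ← Set.range_comp]
      rfl
    rw [e] at h1
    have h2 : Nat.card ((Subgroup.closure (Set.range z)).map (Pi.evalMonoidHom H C)) ≤ C :=
      Nat.card_le_card_of_surjective (fun g : Subgroup.closure (Set.range z) =>
        (⟨Pi.evalMonoidHom H C g, ⟨g, g.2, rfl⟩⟩ :
          (Subgroup.closure (Set.range z)).map (Pi.evalMonoidHom H C))) (by
        rintro ⟨_, g, hg, rfl⟩
        exact ⟨⟨g, hg⟩, rfl⟩)
    exact absurd h2 (not_le.2 h1)
  obtain ⟨N1, h1⟩ := one 1 (Or.inl rfl)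
  obtain ⟨N2, h2⟩ := one 2 (Or.inr (Or.inl rfl))
  obtain ⟨N3, h3⟩ := one 3 (Or.inr (Or.inr (Or.inl rfl)))
  obtain ⟨N4, h4⟩ := one 4 (Or.inr (Or.inr (Or.inr (Or.inl rfl))))
  obtain ⟨N6, h6⟩ := one 6 (Or.inr (Or.inr (Or.inr (Or.inr rfl))))
  refine ⟨N1 + N2 + N3 + N4 + N6, ?_⟩
  rintro e he G _ X hn hX x hx
  rcases he with rfl | rfl | rfl | rfl | rfl
  · exact (h1 G X hn hX x hx).trans (by omega)
  · exact (h2 G X hn hX x hx).trans (by omega)
  · exact (h3 G X hn hX x hx).trans (by omega)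
  · exact (h4 G X hn hX x hx).trans (by omega)
  · exact (h6 G X hn hX x hx).trans (by omega)

/-! ### finitely many powers suffice -/

/-- the `e`-th powers in the free group -/
def Pw (n e : ℕ) : Set (FreeGroup (Fin n)) := {w | ∃ v, w = v ^ e}

theorem Pw_normal (n e : ℕ) : (Subgroup.closure (Pw n e)).Normal := by
  constructor
  intro x hx g
  have h : Subgroup.closure (Pw n e) ≤
      (Subgroup.closure (Pw n e)).comap (MulAut.conj g).toMonoidHom := by
    rw [Subgroup.closure_le]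
    rintro _ ⟨v, rfl⟩
    rw [SetLike.mem_coe, Subgroup.mem_comap]
    refine Subgroup.subset_closure ⟨g * v * g⁻¹, ?_⟩
    rw [conj_pow]
    rfl
  exact h hx

theorem Pw_fg (n : ℕ) {e : ℕ} (he : Ok e) : ∃ S : Finset (FreeGroup (Fin n)),
    (S : Set (FreeGroup (Fin n))) ⊆ Pw n e ∧
    Subgroup.closure (Pw n e) = Subgroup.closure (S : Set (FreeGroup (Fin n))) := by
  classical
  have := Pw_normal n e
  set N := Subgroup.closure (Pw n e) with hN
  have h4 : ∀ g : FreeGroup (Fin n) ⧸ N, g ^ e = 1 := by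
    intro g
    obtain ⟨v, rfl⟩ := QuotientGroup.mk'_surjective N g
    rw [← map_pow, QuotientGroup.mk'_apply, QuotientGroup.eq_one_iff]
    exact Subgroup.subset_closure ⟨v, rfl⟩
  have hq : Group.FG (FreeGroup (Fin n) ⧸ N) := inferInstance
  have hfin : Finite (FreeGroup (Fin n) ⧸ N) := he.fin _ hq h4
  have : N.FiniteIndex := Subgroup.finiteIndex_of_finite_quotient
  have : Group.FG N := Subgroup.fg_of_index_ne_zero N
  have hfg : N.FG := (Group.fg_iff_subgroup_fg N).1 inferInstance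
  obtain ⟨T, hT⟩ := hfg
  obtain ⟨S, hS1, hS2⟩ := closure_fin_set (D := Pw n e) (F := (T : Set (FreeGroup (Fin n))))
    T.finite_toSet (by
      rw [← hN, ← hT]
      exact Subgroup.subset_closure)
  refine ⟨S, hS1, le_antisymm ?_ (Subgroup.closure_mono hS1)⟩
  rw [← hT, Subgroup.closure_le]
  exact hS2

/-- positive words -/
theorem pos_wordE {n : ℕ} (f : ℕ) (v : FreeGroup (Fin n)) : ∃ L : List (Fin n),
    ∀ (G : Type u) [Group G] (x : Fin n → G), (∀ i, x i ^ (f + 1) = 1) →
      FreeGroup.lift x v = (L.map x).prod := by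
  induction v using FreeGroup.induction_on with
  | C1 => exact ⟨[], fun G _ x _ => by simp⟩
  | of i => exact ⟨[i], fun G _ x _ => by simp⟩
  | inv_of i _ =>
    refine ⟨List.replicate f i, fun G _ x hx => ?_⟩
    rw [map_inv, FreeGroup.lift_apply_of, inv_eq_iff_mul_eq_one, List.map_replicate,
      List.prod_replicate, ← pow_succ']
    exact hx i
  | mul v w h1 h2 =>
    obtain ⟨L, hL⟩ := h1
    obtain ⟨L', hL'⟩ := h2
    refine ⟨L ++ L', fun G _ x hx => ?_⟩
    rw [map_mul, hL G x hx, hL' G x hx, List.map_append, List.prod_append]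

/-- **finitely many powers suffice** -/
theorem compactE (n : ℕ) {e : ℕ} (he : Ok e) : ∃ K : ℕ, ∀ (G : Type u) [Group G] (x : Fin n → G),
    (∀ L : List (Fin n), L.length ≤ K → (L.map x).prod ^ e = 1) →
      Ex e (Subgroup.closure (Set.range x)) := by
  classical
  obtain ⟨S, hS, hN⟩ := Pw_fg n he
  obtain ⟨f, rfl⟩ : ∃ f, e = f + 1 := ⟨e - 1, by have := he.pos; omega⟩
  have h1 : ∃ K : ℕ, ∀ w ∈ S, ∃ v, w = v ^ (f + 1) ∧ ∃ L : List (Fin n), L.length ≤ K ∧
      ∀ (G : Type u) [Group G] (x : Fin n → G), (∀ i, x i ^ (f + 1) = 1) →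
        FreeGroup.lift x v = (L.map x).prod := by
    clear hN
    induction S using Finset.induction_on with
    | empty => exact ⟨0, by simp⟩
    | insert w S hw ih =>
      obtain ⟨K, hK⟩ := ih (fun y hy => hS (Finset.mem_insert_of_mem hy))
      obtain ⟨v, hv⟩ := hS (show w ∈ _ by simp)
      obtain ⟨L, hL⟩ := pos_wordE.{u} f v
      refine ⟨max K L.length, ?_⟩
      intro y hy
      rw [Finset.mem_insert] at hy
      rcases hy with rfl | hy
      · exact ⟨v, hv, L, le_max_right _ _, hL⟩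
      · obtain ⟨v', e', L', h', h''⟩ := hK y hy
        exact ⟨v', e', L', h'.trans (le_max_left _ _), h''⟩
  obtain ⟨K, hK⟩ := h1
  refine ⟨max K 1, ?_⟩
  intro G _ x hx g hg
  have hx4 : ∀ i, x i ^ (f + 1) = 1 := by
    intro i
    have := hx [i] (by simp)
    simpa using this
  rw [← FreeGroup.range_lift_eq_closure] at hg
  obtain ⟨w, rfl⟩ := hg
  have hf : w ^ (f + 1) ∈ Subgroup.closure (S : Set (FreeGroup (Fin n))) := by
    rw [← hN]
    exact Subgroup.subset_closure ⟨w, rfl⟩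
  have hker : Subgroup.closure (S : Set (FreeGroup (Fin n))) ≤ (FreeGroup.lift x).ker := by
    rw [Subgroup.closure_le]
    intro w hw
    obtain ⟨v, rfl, L, hL, hv⟩ := hK w hw
    rw [SetLike.mem_coe, MonoidHom.mem_ker, map_pow, hv G x hx4]
    exact hx L (hL.trans (le_max_left _ _))
  have := hker hf
  rw [MonoidHom.mem_ker, map_pow] at this
  exact this

/-- products of bounded length -/
def PrE (K e : ℕ) (X : Set G) : Prop :=
  ∀ l : List G, (∀ x ∈ l, x ∈ X) → l.length ≤ K → l.prod ^ e = 1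

/-- the property of the constant -/
def Good (K : ℕ) : Prop := ∀ e : ℕ, Ok e → ∀ (G : Type u) [Group G] (x : Fin (num e) → G),
    (∀ L : List (Fin (num e)), L.length ≤ K → (L.map x).prod ^ e = 1) →
      Ex e (Subgroup.closure (Set.range x))

/-- **there is an absolute constant `K`** -/
theorem exists_good : ∃ K : ℕ, Good.{u} K := by
  obtain ⟨N1, h1⟩ := compactE.{u} (num 1) (e := 1) (Or.inl rfl)
  obtain ⟨N2, h2⟩ := compactE.{u} (num 2) (e := 2) (Or.inr (Or.inl rfl))
  obtain ⟨N3, h3⟩ := compactE.{u} (num 3) (e := 3) (Or.inr (Or.inr (Or.inl rfl)))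
  obtain ⟨N4, h4⟩ := compactE.{u} (num 4) (e := 4) (Or.inr (Or.inr (Or.inr (Or.inl rfl))))
  obtain ⟨N6, h6⟩ := compactE.{u} (num 6) (e := 6) (Or.inr (Or.inr (Or.inr (Or.inr rfl))))
  refine ⟨N1 + N2 + N3 + N4 + N6, ?_⟩
  rintro e he G _ x hx
  rcases he with rfl | rfl | rfl | rfl | rfl
  · exact h1 G x fun L hL => hx L (by omega)
  · exact h2 G x fun L hL => hx L (by omega)
  · exact h3 G x fun L hL => hx L (by omega)
  · exact h4 G x fun L hL => hx L (by omega)
  · exact h6 G x fun L hL => hx L (by omega)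

theorem six_of {K : ℕ} (hK : Good.{u} K) {e : ℕ} (he : Ok e) {X : Set G} (h : PrE K e X) :
    ∀ x : Fin (num e) → G, (∀ i, x i ∈ X) → Ex e (Subgroup.closure (Set.range x)) := by
  intro x hx
  refine hK e he G x fun L hL => h _ ?_ (by rw [List.length_map]; exact hL)
  intro y hy
  obtain ⟨i, -, rfl⟩ := List.mem_map.1 hy
  exact hx i

theorem lfn_of_quotL (h : LFn (G ⧸ radL G)) : LFn G := LFn.ext (radL G) (radL_lf G) h

theorem values_quotL {W : Set (FreeGroup ℕ)} (h : values W G ⊆ radL G) :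
    ∀ x ∈ values W (G ⧸ radL G), x = 1 := by
  rintro _ ⟨w, hw, θ, rfl⟩
  choose c hc using fun i : ℕ => QuotientGroup.mk'_surjective (radL G) (θ (FreeGroup.of i))
  have e : (QuotientGroup.mk' (radL G)).comp (FreeGroup.lift c) = θ := by
    apply FreeGroup.ext_hom
    intro i
    rw [MonoidHom.comp_apply, FreeGroup.lift_apply_of, hc]
  rw [← e, MonoidHom.comp_apply, QuotientGroup.mk'_apply, QuotientGroup.eq_one_iff]
  exact h ⟨w, hw, FreeGroup.lift c, rfl⟩

/-- **laws** -/
theorem wordsE {K : ℕ} (hK : Good.{u} K) {e : ℕ} (he : Ok e) (W : Set (FreeGroup ℕ))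
    (hW : ∀ (H : Type u) [Group H], (∀ x ∈ values W H, x = 1) → LFn H)
    (h : PrE K e (values W G)) : LFn G :=
  lfn_of_quotL (hW _ (values_quotL (coreE he (values_normal W) (six_of hK he h))))

/-- **powers** -/
theorem powersE {K : ℕ} (hK : Good.{u} K) {e : ℕ} (he : Ok e) (m : ℕ)
    (hm : ∀ (H : Type u) [Group H], (∀ x : H, x ^ m = 1) → LFn H)
    (h : ∀ x : Fin K → G, (List.ofFn fun i => x i ^ m).prod ^ e = 1) : LFn G := by
  have h1 : {g : G | ∃ x, g = x ^ m} ⊆ radL G := by
    refine coreE he ?_ (six_of hK he ?_)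
    · rintro _ ⟨x, rfl⟩ g
      refine ⟨g⁻¹ * x * g, ?_⟩
      have := conj_pow (i := m) (a := g⁻¹) (b := x)
      rw [inv_inv] at this
      exact this.symm
    · intro l hl hlK
      have h2 : ∀ i : Fin K, ∃ x : G, x ^ m = l.getD i 1 := by
        intro i
        by_cases hi : (i : ℕ) < l.length
        · obtain ⟨x, hx⟩ := hl (l[(i : ℕ)]) (List.getElem_mem hi)
          exact ⟨x, by rw [← hx, List.getD_eq_getElem _ _ hi]⟩
        · exact ⟨1, by rw [one_pow, List.getD_eq_default _ _ (not_lt.1 hi)]⟩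
      choose x hx using h2
      have h3 : List.ofFn (fun i => x i ^ m) = l ++ List.replicate (K - l.length) 1 := by
        apply List.ext_getElem
        · simp
          omega
        · intro i hi hi'
          rw [List.getElem_ofFn, hx]
          rw [List.length_ofFn] at hi
          by_cases hil : i < l.length
          · rw [List.getElem_append_left hil, List.getD_eq_getElem _ _ hil]
          · rw [List.getElem_append_right (not_lt.1 hil), List.getElem_replicate,
              List.getD_eq_default _ _ (not_lt.1 hil)]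
      have h4 := h x
      rw [h3, List.prod_append, List.prod_replicate, one_pow, mul_one] at h4
      exact h4
  refine lfn_of_quotL (hm _ fun q => ?_)
  obtain ⟨x, rfl⟩ := QuotientGroup.mk'_surjective (radL G) q
  rw [← map_pow, QuotientGroup.mk'_apply, QuotientGroup.eq_one_iff]
  exact h1 ⟨x, rfl⟩

/-- **derived words** -/
theorem derivedE {K : ℕ} (hK : Good.{u} K) {e : ℕ} (he : Ok e) (k : ℕ)
    (ht : ∀ x : G, IsOfFinOrder x) (h : PrE K e (D G k)) : LFn G := by
  have h1 := coreE he (D_normal k) (six_of hK he h)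
  refine lfn_of_quotL (solv k _ ?_ ?_)
  · intro q
    obtain ⟨x, rfl⟩ := QuotientGroup.mk'_surjective (radL G) q
    exact (QuotientGroup.mk' (radL G)).isOfFinOrder (ht x)
  · intro q hq
    obtain ⟨x, hx, rfl⟩ := D_map (QuotientGroup.mk' (radL G)) (QuotientGroup.mk'_surjective (radL G)) k hq
    rw [QuotientGroup.mk'_apply, QuotientGroup.eq_one_iff]
    exact h1 hx

/-- the iterated words -/
def iterE (K : ℕ) (W : Set (FreeGroup ℕ)) : List ℕ → Set (FreeGroup ℕ)
  | [] => W
  | e :: es => {v | ∃ l : List (FreeGroup ℕ), (∀ x ∈ l, x ∈ values (iterE K W es) (FreeGroup ℕ)) ∧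
      l.length ≤ K ∧ v = l.prod ^ e}

theorem iterateE {K : ℕ} (hK : Good.{u} K) (W : Set (FreeGroup ℕ))
    (hW : ∀ (H : Type u) [Group H], (∀ x ∈ values W H, x = 1) → LFn H) (es : List ℕ)
    (hes : ∀ e ∈ es, Ok e) :
    ∀ (H : Type u) [Group H], (∀ x ∈ values (iterE K W es) H, x = 1) → LFn H := by
  induction es with
  | nil => exact hW
  | cons e es ih =>
    intro H _ hH
    refine wordsE hK (hes e (by simp)) (iterE K W es) (ih fun e he => hes e (by simp [he])) ?_
    intro l hl hlK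
    obtain ⟨Θ, l', h1, h2, h3⟩ := merge _ l hl
    have h4 := hH (Θ (l'.prod ^ e)) ⟨_, ⟨l', h1, h2 ▸ hlK, rfl⟩, Θ, rfl⟩
    rw [map_pow, map_list_prod, h3] at h4
    exact h4

end Pool.Agent.H775.Six
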